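import Mathlib

/-!
# Minimal left ideals and idempotents of compact right topological semigroups

Elementary facts used in the proof for MP_25e1d2: existence of idempotents that are minimal in the
usual order of idempotents, and of idempotents in `(c + M) ∩ (M + c)`.
-/

set_option autoImplicit false

open Filter

namespace Pool.Agent.W725.BetaMin

section General

variable {M : Type*} [AddSemigroup M] [TopologicalSpace M] [CompactSpace M] [T2Space M]

/-- nonempty closed left ideals -/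
def LI (N : Set M) : Prop := IsClosed N ∧ N.Nonempty ∧ ∀ x : M, ∀ m ∈ N, x + m ∈ N

omit [CompactSpace M] [T2Space M] in
theorem exists_min_aux [CompactSpace M] (N₀ : Set M) (h₀ : LI N₀) :
    ∃ N, N ⊆ N₀ ∧ Minimal LI N := by
  have := zorn_superset_nonempty {N : Set M | LI N} (fun c hcs hc hne => by
    refine ⟨⋂₀ c, ⟨isClosed_sInter fun t ht => (hcs ht).1, ?_, fun x m hm => ?_⟩, fun s hs =>
      Set.sInter_subset_of_mem hs⟩
    · have : Nonempty c := hne.to_subtype
      rw [Set.sInter_eq_iInter]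
      refine IsCompact.nonempty_iInter_of_directed_nonempty_isCompact_isClosed
        (fun i : c => (i : Set M)) ?_ (fun i => (hcs i.prop).2.1)
        (fun i => (hcs i.prop).1.isCompact) (fun i => (hcs i.prop).1)
      exact DirectedOn.directed_val (IsChain.directedOn hc.symm)
    · rw [Set.mem_sInter]
      exact fun t ht => (hcs ht).2.2 x m (Set.mem_sInter.mp hm t ht)) N₀ h₀
  obtain ⟨N, hN, hmin⟩ := this
  exact ⟨N, hN, hmin⟩

theorem min_surj (hc : ∀ r : M, Continuous (· + r)) {N : Set M} (hN : Minimal LI N) {m x : M}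
    (hm : m ∈ N) (hx : x ∈ N) : ∃ y ∈ N, y + m = x := by
  have h1 : (· + m) '' N = N := by
    apply hN.eq_of_subset
    · refine ⟨(hc m).isClosedMap _ hN.prop.1, hN.prop.2.1.image _, ?_⟩
      rintro x _ ⟨y, hy, rfl⟩
      exact ⟨x + y, hN.prop.2.2 x y hy, add_assoc _ _ _⟩
    · rintro _ ⟨y, _, rfl⟩
      exact hN.prop.2.2 y m hm
  rw [← h1] at hx
  obtain ⟨y, hy, h⟩ := hx
  exact ⟨y, hy, h⟩

theorem exists_idem (hc : ∀ r : M, Continuous (· + r)) {N : Set M} (hN : LI N) :
    ∃ e ∈ N, e + e = e :=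
  exists_idempotent_in_compact_add_subsemigroup hc N hN.2.1 hN.1.isCompact
    (fun x _ y hy => hN.2.2 x y hy)

/-- There is an idempotent `e ∈ N₀` which is minimal in the order of idempotents. -/
theorem exists_minimal_idempotent (hc : ∀ r : M, Continuous (· + r)) (N₀ : Set M) (h₀ : LI N₀) :
    ∃ e ∈ N₀, e + e = e ∧ ∀ f : M, f + f = f → e + f = f → f + e = f → f = e := by
  obtain ⟨N, hNN, hN⟩ := exists_min_aux N₀ h₀
  obtain ⟨e, heN, he⟩ := exists_idem hc hN.prop
  refine ⟨e, hNN heN, he, fun f hf h1 h2 => ?_⟩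
  have hfN : f ∈ N := by rw [← h2]; exact hN.prop.2.2 f e heN
  obtain ⟨y, _, hy⟩ := min_surj hc hN hfN heN
  have : e + f = e := by rw [← hy, add_assoc, hf]
  rw [← h1, this]

/-- For every `c` there is an idempotent in `(c + M) ∩ (M + c)`. -/
theorem exists_idem_both (hc : ∀ r : M, Continuous (· + r)) (c : M) :
    ∃ z : M, z + z = z ∧ (∃ w, z = c + w) ∧ (∃ w, z = w + c) := by
  have h₀ : LI ((· + c) '' (Set.univ : Set M)) := by
    refine ⟨(hc c).isClosedMap _ isClosed_univ, ⟨c + c, c, trivial, rfl⟩, ?_⟩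
    rintro x _ ⟨y, _, rfl⟩
    exact ⟨x + y, trivial, add_assoc _ _ _⟩
  obtain ⟨N, hNN, hN⟩ := exists_min_aux _ h₀
  obtain ⟨f, hfN, hf⟩ := exists_idem hc hN.prop
  have hx : c + f ∈ N := hN.prop.2.2 c f hfN
  obtain ⟨y, hyN, hy⟩ := min_surj hc hN hx hfN
  have hz : (c + f) + y ∈ N := hN.prop.2.2 _ y hyN
  refine ⟨(c + f) + y, ?_, ⟨f + y, by rw [add_assoc]⟩, ?_⟩
  · have : (c + f) + y + (c + f) = c + f := by
      rw [add_assoc (c + f) y, hy, add_assoc, hf]
    rw [← add_assoc, this]
  · obtain ⟨w, _, hw⟩ := hNN hz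
    exact ⟨w, hw.symm⟩

end General

end Pool.Agent.W725.BetaMin
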