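import Mathlib
import Pool.Agent.W725.BetaMin

/-!
# Finite sums together with the sums `y n + 2 * y (n+1) + y (n+2)`

The ultrafilter proof. Let `e` be a minimal idempotent of `βℕ`, `A = e × 0 + 0 × e` in `β(ℕ × ℕ)`
and `Z` an idempotent in `(A + β(ℕ × ℕ)) ∩ (β(ℕ × ℕ) + A)`. The images of `Z` under `x`, `y` and
`x + y` are idempotents below `e`, hence all are `e`; the images `μ` and `ν` under `2x + y` and
`x + 2y` satisfy `e + μ = e` and `ν + e = e`, so `e + μ + ν + e = e`. With `Z`-generic pairs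
`(a m, b m)` the sequence `y n = a n + b (n+1)` does what is needed.
-/

set_option autoImplicit false

open Filter

namespace Pool.Agent.W725.FSConsec

attribute [local instance] Ultrafilter.add Ultrafilter.addSemigroup

open Pool.Agent.W725.BetaMin

theorem map_add_uf {M N : Type*} [Add M] [Add N] (φ : M → N) (hφ : ∀ x y, φ (x + y) = φ x + φ y)
    (U V : Ultrafilter M) : (U + V).map φ = U.map φ + V.map φ := by
  apply Ultrafilter.coe_inj.mp
  apply Filter.ext'
  intro p
  rw [Ultrafilter.eventually_add]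
  have h1 : (∀ᶠ x in ((U + V).map φ : Filter N), p x) ↔ ∀ᶠ x in ((U + V : Ultrafilter M) : Filter M), p (φ x) :=
    Iff.rfl
  rw [h1, Ultrafilter.eventually_add]
  have h2 : (∀ᶠ m in (U.map φ : Filter N), ∀ᶠ m' in (V.map φ : Filter N), p (m + m')) ↔
      ∀ᶠ m in (U : Filter M), ∀ᶠ m' in (V : Filter M), p (φ m + φ m') := Iff.rfl
  rw [h2]
  simp only [hφ]

theorem add_pure_zero (U : Ultrafilter ℕ) : U + (pure 0 : Ultrafilter ℕ) = U := by
  apply Ultrafilter.coe_inj.mp
  apply Filter.ext'
  intro p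
  rw [Ultrafilter.eventually_add]
  simp

theorem pure_zero_add (U : Ultrafilter ℕ) : (pure 0 : Ultrafilter ℕ) + U = U := by
  apply Ultrafilter.coe_inj.mp
  apply Filter.ext'
  intro p
  rw [Ultrafilter.eventually_add]
  simp

/-- The linear form `p x + q y`. -/
def lf (p q : ℕ) (v : ℕ × ℕ) : ℕ := p * v.1 + q * v.2

theorem lf_add (p q : ℕ) (v w : ℕ × ℕ) : lf p q (v + w) = lf p q v + lf p q w := by
  simp only [lf, Prod.fst_add, Prod.snd_add]; ring

theorem exists_e : ∃ e : Ultrafilter ℕ, (∀ k : ℕ, {n | k ≤ n} ∈ e) ∧ e + e = e ∧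
    ∀ f : Ultrafilter ℕ, f + f = f → e + f = f → f + e = f → f = e := by
  have h₀ : LI {p : Ultrafilter ℕ | ∀ k : ℕ, {n | k ≤ n} ∈ p} := by
    refine ⟨?_, ?_, ?_⟩
    · have : {p : Ultrafilter ℕ | ∀ k : ℕ, {n | k ≤ n} ∈ p} =
          ⋂ k : ℕ, {p : Ultrafilter ℕ | {n | k ≤ n} ∈ p} := by
        ext p; simp
      rw [this]
      exact isClosed_iInter fun k => ultrafilter_isClosed_basic _
    · refine ⟨Ultrafilter.of atTop, fun k => ?_⟩
      exact (Ultrafilter.of_le (atTop : Filter ℕ)) (mem_atTop k)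
    · intro x m hm k
      have h1 : ∀ᶠ n in ((x + m : Ultrafilter ℕ) : Filter ℕ), k ≤ n := by
        rw [Ultrafilter.eventually_add]
        refine Eventually.of_forall fun a => ?_
        have h2 : ∀ᶠ b in (m : Filter ℕ), k ≤ b := hm k
        exact h2.mono fun b hb => le_trans hb (Nat.le_add_left _ _)
      exact h1
  obtain ⟨e, he, h1, h2⟩ := exists_minimal_idempotent
    (M := Ultrafilter ℕ) Ultrafilter.continuous_add_left _ h₀
  exact ⟨e, he, h1, h2⟩

/-- The algebraic heart. -/
theorem exists_eZ : ∃ (e : Ultrafilter ℕ) (Z : Ultrafilter (ℕ × ℕ)),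
    (∀ k : ℕ, {n | k ≤ n} ∈ e) ∧ e + e = e ∧
    Z.map (lf 1 0) = e ∧ Z.map (lf 0 1) = e ∧ Z.map (lf 1 1) = e ∧
    ∀ k : ℕ, e + Z.map (lf k 1) + Z.map (lf 1 k) + e = e := by
  obtain ⟨e, hpos, he, hmin⟩ := exists_e
  set A : Ultrafilter (ℕ × ℕ) := e.map (fun x => (x, 0)) + e.map (fun y => (0, y)) with hA
  have hAmap : ∀ p q : ℕ, A.map (lf p q) = e.map (fun x => p * x) + e.map (fun y => q * y) := by
    intro p q
    rw [hA, map_add_uf _ (lf_add p q), Ultrafilter.map_map, Ultrafilter.map_map]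
    have f1 : (lf p q ∘ fun x : ℕ => (x, 0)) = fun x => p * x := by ext x; simp [lf]
    have f2 : (lf p q ∘ fun y : ℕ => (0, y)) = fun y => q * y := by ext x; simp [lf]
    rw [f1, f2]
  have hone : e.map (fun x => 1 * x) = e := by
    have : (fun x : ℕ => 1 * x) = id := by ext x; simp
    rw [this, Ultrafilter.map_id]
  have hzero : e.map (fun x => 0 * x) = pure 0 := by
    apply Ultrafilter.coe_inj.mp
    apply Filter.ext'
    intro p
    have : (∀ᶠ x in (e.map (fun x => 0 * x) : Filter ℕ), p x) ↔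
      ∀ᶠ x in (e : Filter ℕ), p (0 * x) := Iff.rfl
    rw [this]
    simp
  obtain ⟨Z, hZ, ⟨W, hW⟩, ⟨W', hW'⟩⟩ := exists_idem_both
    (M := Ultrafilter (ℕ × ℕ)) Ultrafilter.continuous_add_left A
  have hidem : ∀ p q : ℕ, Z.map (lf p q) + Z.map (lf p q) = Z.map (lf p q) := by
    intro p q
    rw [← map_add_uf _ (lf_add p q), hZ]
  have hl : ∀ p q : ℕ, Z.map (lf p q) = A.map (lf p q) + W.map (lf p q) := by
    intro p q
    rw [hW, map_add_uf _ (lf_add p q)]
  have hr : ∀ p q : ℕ, Z.map (lf p q) = W'.map (lf p q) + A.map (lf p q) := by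
    intro p q
    conv_lhs => rw [hW']
    rw [map_add_uf _ (lf_add p q)]
  -- forms `(1, q)` are fixed by adding `e` on the left
  have hleft : ∀ q : ℕ, e + Z.map (lf 1 q) = Z.map (lf 1 q) := by
    intro q
    rw [hl, hAmap, hone, ← add_assoc, ← add_assoc, he]
  -- forms `(p, 1)` are fixed by adding `e` on the right
  have hright : ∀ p : ℕ, Z.map (lf p 1) + e = Z.map (lf p 1) := by
    intro p
    rw [hr, hAmap, hone, add_assoc, add_assoc, he]
  have h10 : Z.map (lf 1 0) = e := by
    refine hmin _ (hidem 1 0) (hleft 0) ?_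
    rw [hr, hAmap, hone, hzero, add_pure_zero, add_assoc, he]
  have h01 : Z.map (lf 0 1) = e := by
    refine hmin _ (hidem 0 1) ?_ (hright 0)
    rw [hl, hAmap, hone, hzero, pure_zero_add, ← add_assoc, he]
  have h11 : Z.map (lf 1 1) = e := hmin _ (hidem 1 1) (hleft 1) (hright 1)
  refine ⟨e, Z, hpos, he, h10, h01, h11, fun k => ?_⟩
  -- `e + μ = e`
  have hmu : e + Z.map (lf k 1) = e := by
    refine hmin _ ?_ ?_ ?_
    · rw [add_assoc, ← add_assoc (Z.map (lf k 1)) e, hright, hidem]
    · rw [← add_assoc, he]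
    · rw [add_assoc, hright]
  have hnu : Z.map (lf 1 k) + e = e := by
    refine hmin _ ?_ ?_ ?_
    · rw [add_assoc, ← add_assoc e (Z.map (lf 1 k)) e, hleft, ← add_assoc, hidem]
    · rw [← add_assoc, hleft]
    · rw [add_assoc, he]
  rw [hmu, add_assoc, hnu, he]

/-- Recursive construction of a generic sequence. -/
theorem exists_generic {V : Type*} [Inhabited V] (Z : Ultrafilter V) (R : ℕ → (ℕ → V) → Prop)
    (h0 : ∀ z, R 0 z) (hloc : ∀ m z z', (∀ i < m, z i = z' i) → R m z → R m z')
    (hstep : ∀ m z, R m z → ∀ᶠ v in (Z : Filter V), R (m + 1) (Function.update z m v)) :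
    ∃ z : ℕ → V, ∀ m, R m z := by
  classical
  have hex : ∀ m z, R m z → ∃ v, R (m + 1) (Function.update z m v) := fun m z h =>
    (hstep m z h).exists
  choose f hf using hex
  let s : (m : ℕ) → {z : ℕ → V // R m z} := fun m =>
    Nat.rec ⟨fun _ => default, h0 _⟩ (fun m p => ⟨Function.update p.1 m (f m p.1 p.2), hf m p.1 p.2⟩) m
  have hs : ∀ m, (s (m + 1)).1 = Function.update (s m).1 m (f m (s m).1 (s m).2) := fun m => rfl
  have hstab : ∀ i m, i < m → (s m).1 i = (s (i + 1)).1 i := by
    intro i m h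
    induction m with
    | zero => omega
    | succ m ih =>
      rcases Nat.lt_succ_iff_lt_or_eq.mp h with h' | h'
      · rw [hs, Function.update_of_ne (by omega), ih h']
      · subst h'; rfl
  refine ⟨fun i => (s (i + 1)).1 i, fun m => ?_⟩
  exact hloc m (s m).1 _ (fun i hi => hstab i m hi) (s m).2

open Finset in
/-- partial sum over the zones `< m` -/
def P (z : ℕ → ℕ × ℕ) (F : Finset ℕ) (m : ℕ) : ℕ :=
  ∑ i ∈ range m, ((if i ∈ F then (z i).1 else 0) + (if 1 ≤ i ∧ i - 1 ∈ F then (z i).2 else 0))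

theorem P_congr {z z' : ℕ → ℕ × ℕ} {F : Finset ℕ} {m : ℕ} (h : ∀ i < m, z i = z' i) :
    P z F m = P z' F m := by
  unfold P
  apply Finset.sum_congr rfl
  intro i hi
  rw [h i (Finset.mem_range.mp hi)]

theorem P_succ (z : ℕ → ℕ × ℕ) (F : Finset ℕ) (m : ℕ) (v : ℕ × ℕ) :
    P (Function.update z m v) F (m + 1) =
      P z (F.erase m) m + ((if m ∈ F then v.1 else 0) + (if 1 ≤ m ∧ m - 1 ∈ F then v.2 else 0)) := by
  unfold P
  rw [Finset.sum_range_succ]
  congr 1
  · apply Finset.sum_congr rfl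
    intro i hi
    have hi' : i < m := Finset.mem_range.mp hi
    rw [Function.update_of_ne (by omega)]
    have h1 : (i ∈ F.erase m) ↔ i ∈ F := by
      rw [Finset.mem_erase]; constructor
      · exact fun h => h.2
      · exact fun h => ⟨by omega, h⟩
    have h2 : (1 ≤ i ∧ i - 1 ∈ F.erase m) ↔ (1 ≤ i ∧ i - 1 ∈ F) := by
      rw [Finset.mem_erase]; constructor
      · exact fun h => ⟨h.1, h.2.2⟩
      · exact fun h => ⟨h.1, by omega, h.2⟩
    simp only [h1, h2]
  · simp

theorem P_eq_sum (z : ℕ → ℕ × ℕ) (s : Finset ℕ) (m : ℕ) (hm : ∀ i ∈ s, i + 1 < m) :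
    P z s m = ∑ i ∈ s, ((z i).1 + (z (i + 1)).2) := by
  unfold P
  rw [Finset.sum_add_distrib, Finset.sum_add_distrib]
  congr 1
  · rw [← Finset.sum_filter]
    apply Finset.sum_congr _ (fun _ _ => rfl)
    ext i
    simp only [Finset.mem_filter, Finset.mem_range]
    exact ⟨fun h => h.2, fun h => ⟨by have := hm i h; omega, h⟩⟩
  · rw [← Finset.sum_filter]
    symm
    apply Finset.sum_bij (fun i _ => i + 1)
    · intro i hi
      simp only [Finset.mem_filter, Finset.mem_range]
      exact ⟨hm i hi, by omega, by simpa using hi⟩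
    · intro i _ j _ h
      omega
    · intro j hj
      simp only [Finset.mem_filter, Finset.mem_range] at hj
      exact ⟨j - 1, hj.2.2, by omega⟩
    · intro i _
      rfl

/-- The combinatorial extraction, for the coefficient `k` in the middle. -/
theorem main (k : ℕ) (e : Ultrafilter ℕ) (Z : Ultrafilter (ℕ × ℕ)) (he : e + e = e)
    (h10 : Z.map (lf 1 0) = e) (h01 : Z.map (lf 0 1) = e) (h11 : Z.map (lf 1 1) = e)
    (hT : e + Z.map (lf k 1) + Z.map (lf 1 k) + e = e) (A : Set ℕ) (hA : A ∈ e) :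
    ∃ y : ℕ → ℕ, (∀ s : Finset ℕ, s.Nonempty → ∑ i ∈ s, y i ∈ A) ∧
      ∀ n, y n + k * y (n + 1) + y (n + 2) ∈ A := by
  classical
  -- `A*`
  set A' : Set ℕ := {x | x ∈ A ∧ ∀ᶠ t in (e : Filter ℕ), x + t ∈ A} with hA'
  have hAe : ∀ᶠ x in (e : Filter ℕ), x ∈ A := hA
  have hA'e : ∀ᶠ x in (e : Filter ℕ), x ∈ A' := by
    have h1 : ∀ᶠ x in ((e + e : Ultrafilter ℕ) : Filter ℕ), x ∈ A := by rw [he]; exact hA
    rw [Ultrafilter.eventually_add] at h1
    filter_upwards [hAe, h1] with x hx hx'
    exact ⟨hx, hx'⟩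
  have hA's : ∀ x ∈ A', ∀ᶠ t in (e : Filter ℕ), x + t ∈ A' := by
    intro x hx
    have h1 : ∀ᶠ t in ((e + e : Ultrafilter ℕ) : Filter ℕ), x + t ∈ A := by rw [he]; exact hx.2
    rw [Ultrafilter.eventually_add] at h1
    filter_upwards [hx.2, h1] with t ht ht'
    exact ⟨ht, by simpa only [add_assoc] using ht'⟩
  -- transfer to `Z`
  have t10 : ∀ p : ℕ → Prop, (∀ᶠ x in (e : Filter ℕ), p x) → ∀ᶠ v in (Z : Filter (ℕ × ℕ)), p v.1 := by
    intro p hp
    rw [← h10] at hp
    have : ∀ᶠ v in (Z : Filter (ℕ × ℕ)), p (lf 1 0 v) := hp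
    simpa [lf] using this
  have t01 : ∀ p : ℕ → Prop, (∀ᶠ x in (e : Filter ℕ), p x) → ∀ᶠ v in (Z : Filter (ℕ × ℕ)), p v.2 := by
    intro p hp
    rw [← h01] at hp
    have : ∀ᶠ v in (Z : Filter (ℕ × ℕ)), p (lf 0 1 v) := hp
    simpa [lf] using this
  have t11 : ∀ p : ℕ → Prop, (∀ᶠ x in (e : Filter ℕ), p x) →
      ∀ᶠ v in (Z : Filter (ℕ × ℕ)), p (v.1 + v.2) := by
    intro p hp
    rw [← h11] at hp
    have : ∀ᶠ v in (Z : Filter (ℕ × ℕ)), p (lf 1 1 v) := hp
    simpa [lf] using this
  -- the sets for the sums `T`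
  set B3 : ℕ → Prop := fun s => ∀ᶠ c in (e : Filter ℕ), s + c ∈ A with hB3
  set B2 : ℕ → Prop := fun s => ∀ᶠ v in (Z : Filter (ℕ × ℕ)), B3 (s + (v.1 + k * v.2)) with hB2
  set B1 : ℕ → Prop := fun s => ∀ᶠ v in (Z : Filter (ℕ × ℕ)), B2 (s + (k * v.1 + v.2)) with hB1
  have hB1e : ∀ᶠ x in (e : Filter ℕ), B1 x := by
    have h1 : ∀ᶠ x in ((e + Z.map (lf k 1) + Z.map (lf 1 k) + e : Ultrafilter ℕ) : Filter ℕ),
        x ∈ A := by rw [hT]; exact hA
    rw [Ultrafilter.eventually_add, Ultrafilter.eventually_add, Ultrafilter.eventually_add] at h1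
    filter_upwards [h1] with x hx
    have h2 : ∀ᶠ v in (Z : Filter (ℕ × ℕ)), ∀ᶠ b in (Z.map (lf 1 k) : Filter ℕ),
        ∀ᶠ c in (e : Filter ℕ), x + lf k 1 v + b + c ∈ A := hx
    filter_upwards [h2] with v hv
    have h3 : ∀ᶠ w in (Z : Filter (ℕ × ℕ)),
        ∀ᶠ c in (e : Filter ℕ), x + lf k 1 v + lf 1 k w + c ∈ A := hv
    filter_upwards [h3] with w hw
    simpa only [lf, one_mul] using hw
  -- the conditions
  let R : ℕ → (ℕ → ℕ × ℕ) → Prop := fun m z =>
    (∀ F ∈ (Finset.range m).powerset, F.Nonempty → P z F m ∈ A') ∧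
    (∀ i, i < m → B1 (z i).1) ∧
    (∀ i, i + 1 < m → B2 ((z i).1 + (k * (z (i + 1)).1 + (z (i + 1)).2))) ∧
    (∀ i, i + 2 < m → B3 ((z i).1 + (k * (z (i + 1)).1 + (z (i + 1)).2) +
      ((z (i + 2)).1 + k * (z (i + 2)).2))) ∧
    (∀ i, i + 3 < m → (z i).1 + (k * (z (i + 1)).1 + (z (i + 1)).2) +
      ((z (i + 2)).1 + k * (z (i + 2)).2) + (z (i + 3)).2 ∈ A)
  obtain ⟨z, hz⟩ : ∃ z : ℕ → ℕ × ℕ, ∀ m, R m z := by
    apply exists_generic Z R
    · intro z
      refine ⟨?_, ?_, ?_, ?_, ?_⟩
      · intro F hF hne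
        simp only [Finset.range_zero, Finset.powerset_empty, Finset.mem_singleton] at hF
        subst hF
        exact absurd hne (by simp)
      all_goals intro i hi; omega
    · rintro m z z' h ⟨r1, r2, r3, r4, r5⟩
      refine ⟨?_, ?_, ?_, ?_, ?_⟩
      · intro F hF hne
        rw [← P_congr h]
        exact r1 F hF hne
      · intro i hi
        rw [← h i hi]; exact r2 i hi
      · intro i hi
        rw [← h i (by omega), ← h (i + 1) hi]; exact r3 i hi
      · intro i hi
        rw [← h i (by omega), ← h (i + 1) (by omega), ← h (i + 2) hi]; exact r4 i hi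
      · intro i hi
        rw [← h i (by omega), ← h (i + 1) (by omega), ← h (i + 2) (by omega), ← h (i + 3) hi]
        exact r5 i hi
    · rintro m z ⟨r1, r2, r3, r4, r5⟩
      -- condition (i)
      have c1 : ∀ᶠ v in (Z : Filter (ℕ × ℕ)), ∀ F ∈ (Finset.range (m + 1)).powerset,
          F.Nonempty → P (Function.update z m v) F (m + 1) ∈ A' := by
        rw [Filter.eventually_all_finset]
        intro F hF
        by_cases hne : F.Nonempty
        swap
        · exact Eventually.of_forall fun v h => absurd h hne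
        have hsub : F.erase m ∈ (Finset.range m).powerset := by
          rw [Finset.mem_powerset] at hF ⊢
          intro i hi
          rw [Finset.mem_erase] at hi
          have := Finset.mem_range.mp (hF hi.2)
          rw [Finset.mem_range]
          omega
        by_cases hne' : (F.erase m).Nonempty
        · have hP := r1 _ hsub hne'
          have hPs := hA's _ hP
          by_cases a1 : m ∈ F
          · by_cases a2 : 1 ≤ m ∧ m - 1 ∈ F
            · filter_upwards [t11 _ hPs] with v hv _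
              rw [P_succ, if_pos a1, if_pos a2]
              exact hv
            · filter_upwards [t10 _ hPs] with v hv _
              rw [P_succ, if_pos a1, if_neg a2, add_zero]
              exact hv
          · by_cases a2 : 1 ≤ m ∧ m - 1 ∈ F
            · filter_upwards [t01 _ hPs] with v hv _
              rw [P_succ, if_neg a1, if_pos a2, zero_add]
              exact hv
            · refine Eventually.of_forall fun v _ => ?_
              rw [P_succ, if_neg a1, if_neg a2, add_zero, add_zero]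
              exact hP
        · rw [Finset.not_nonempty_iff_eq_empty] at hne'
          have a1 : m ∈ F := by
            by_contra h
            rw [Finset.erase_eq_of_notMem h] at hne'
            exact hne.ne_empty hne'
          have a2 : ¬ (1 ≤ m ∧ m - 1 ∈ F) := by
            rintro ⟨h1, h2⟩
            have : m - 1 ∈ F.erase m := Finset.mem_erase.mpr ⟨by omega, h2⟩
            rw [hne'] at this
            simp at this
          filter_upwards [t10 _ hA'e] with v hv _
          rw [P_succ, if_pos a1, if_neg a2, add_zero, hne']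
          simpa [P] using hv
      have c2 : ∀ᶠ v in (Z : Filter (ℕ × ℕ)), B1 v.1 := t10 _ hB1e
      have c3 : ∀ᶠ v in (Z : Filter (ℕ × ℕ)), ∀ i, i + 1 = m → B2 ((z i).1 + (k * v.1 + v.2)) := by
        rcases Nat.eq_zero_or_pos m with h | h
        · exact Eventually.of_forall fun v i hi => by omega
        · obtain ⟨j, rfl⟩ : ∃ j, m = j + 1 := ⟨m - 1, by omega⟩
          filter_upwards [r2 j (by omega)] with v hv i hi
          obtain rfl : i = j := by omega
          exact hv
      have c4 : ∀ᶠ v in (Z : Filter (ℕ × ℕ)), ∀ i, i + 2 = m →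
          B3 ((z i).1 + (k * (z (i + 1)).1 + (z (i + 1)).2) + (v.1 + k * v.2)) := by
        rcases Nat.lt_or_ge m 2 with h | h
        · exact Eventually.of_forall fun v i hi => by omega
        · obtain ⟨j, rfl⟩ : ∃ j, m = j + 2 := ⟨m - 2, by omega⟩
          filter_upwards [r3 j (by omega)] with v hv i hi
          obtain rfl : i = j := by omega
          exact hv
      have c5 : ∀ᶠ v in (Z : Filter (ℕ × ℕ)), ∀ i, i + 3 = m →
          (z i).1 + (k * (z (i + 1)).1 + (z (i + 1)).2) +
            ((z (i + 2)).1 + k * (z (i + 2)).2) + v.2 ∈ A := by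
        rcases Nat.lt_or_ge m 3 with h | h
        · exact Eventually.of_forall fun v i hi => by omega
        · obtain ⟨j, rfl⟩ : ∃ j, m = j + 3 := ⟨m - 3, by omega⟩
          filter_upwards [t01 _ (r4 j (by omega))] with v hv i hi
          obtain rfl : i = j := by omega
          exact hv
      filter_upwards [c1, c2, c3, c4, c5] with v v1 v2 v3 v4 v5
      have hold : ∀ i, i < m → Function.update z m v i = z i := fun i hi =>
        Function.update_of_ne (by omega) _ _
      have hnew : Function.update z m v m = v := Function.update_self _ _ _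
      refine ⟨v1, ?_, ?_, ?_, ?_⟩
      · intro i hi
        rcases Nat.lt_succ_iff_lt_or_eq.mp hi with h | h
        · rw [hold i h]; exact r2 i h
        · subst h; rw [hnew]; exact v2
      · intro i hi
        rcases Nat.lt_succ_iff_lt_or_eq.mp hi with h | h
        · rw [hold i (by omega), hold (i + 1) h]; exact r3 i h
        · rw [hold i (by omega), h, hnew]; exact v3 i h
      · intro i hi
        rcases Nat.lt_succ_iff_lt_or_eq.mp hi with h | h
        · rw [hold i (by omega), hold (i + 1) (by omega), hold (i + 2) h]; exact r4 i h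
        · rw [hold i (by omega), hold (i + 1) (by omega), h, hnew]; exact v4 i h
      · intro i hi
        rcases Nat.lt_succ_iff_lt_or_eq.mp hi with h | h
        · rw [hold i (by omega), hold (i + 1) (by omega), hold (i + 2) (by omega),
            hold (i + 3) h]
          exact r5 i h
        · rw [hold i (by omega), hold (i + 1) (by omega), hold (i + 2) (by omega), h, hnew]
          exact v5 i h
  refine ⟨fun n => (z n).1 + (z (n + 1)).2, ?_, ?_⟩
  · intro s hs
    have hb : ∀ i ∈ s, i + 1 < s.sup id + 2 := fun i hi => by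
      have : i ≤ s.sup id := Finset.le_sup (f := id) hi
      omega
    have h1 := (hz (s.sup id + 2)).1 s (by
      rw [Finset.mem_powerset]
      intro i hi
      have := hb i hi
      rw [Finset.mem_range]; omega) hs
    rw [P_eq_sum z s _ hb] at h1
    exact h1.1
  · intro n
    have h := (hz (n + 4)).2.2.2.2 n (by omega)
    have e1 : (z n).1 + (z (n + 1)).2 + k * ((z (n + 1)).1 + (z (n + 1 + 1)).2) +
        ((z (n + 2)).1 + (z (n + 2 + 1)).2) =
        (z n).1 + (k * (z (n + 1)).1 + (z (n + 1)).2) +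
      ((z (n + 2)).1 + k * (z (n + 2)).2) + (z (n + 3)).2 := by ring
    show (z n).1 + (z (n + 1)).2 + k * ((z (n + 1)).1 + (z (n + 1 + 1)).2) +
        ((z (n + 2)).1 + (z (n + 2 + 1)).2) ∈ A
    rw [e1]
    exact h

end Pool.Agent.W725.FSConsec
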